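import Mathlib
import Pool.Agent.H116.Ibn
import Pool.Agent.H116.ParentTree

/-!
# `i_bn(G) = min { i_bn(T) : T a spanning tree of G }`
-/

namespace Pool.Agent.Results.MP_7de179_co.SpanningTreeMin

open SimpleGraph Finset Pool.Agent.H116.Ibn Pool.Agent.H116.ParentTree

section general

variable {V : Type} [Fintype V] {G : SimpleGraph V}

theorem maxBn_exists [Nontrivial V] (hc : G.Connected) : ∃ f : V → ℕ, MaxBn G f := by
  classical
  obtain ⟨c⟩ := hc.nonempty
  let f : V → ℕ := fun v => if v = c then ecc G c else 0
  have hpos := ecc_pos hc c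
  have hfc : ∀ v, 0 < f v → v = c := by
    intro v hv
    by_contra h
    simp [f, h] at hv
  refine ⟨f, maxBn_of hc ?_ ?_ ?_ ?_⟩
  · rw [isBroadcast_iff]
    intro v
    by_cases h : v = c
    · subst h; simp [f]
    · simp [f, h]
  · intro u v hu hv huv
    exact absurd ((hfc u hu).trans (hfc v hv).symm) huv
  · intro x
    exact ⟨c, by simp [f, hpos], by simp only [f, if_true]; exact dist_le_ecc x c⟩
  · intro v hv
    left
    rw [hfc v hv]
    simp [f]

theorem maxBn_cover [Nontrivial V] (hc : G.Connected) {f : V → ℕ} (hf : MaxBn G f) :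
    ∀ x, ∃ v, 0 < f v ∧ G.dist x v ≤ f v := by
  classical
  intro x
  by_contra hno
  push Not at hno
  have hb := (isBroadcast_iff f).1 hf.1
  have hfx : f x = 0 := by
    by_contra h
    have h1 := hno x (Nat.pos_of_ne_zero h)
    rw [SimpleGraph.dist_self] at h1
    omega
  let g : V → ℕ := Function.update f x 1
  have hgx : g x = 1 := by simp [g]
  have hgy : ∀ y, y ≠ x → g y = f y := by intro y hy; simp [g, hy]
  apply hf.2.2 g
  · rw [isBroadcast_iff]
    intro v
    by_cases h : v = x
    · subst h
      rw [hgx]
      exact ecc_pos hc v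
    · rw [hgy v h]; exact hb v
  · intro v
    show f v ≤ g v
    by_cases h : v = x
    · subst h; omega
    · rw [hgy v h]
  · intro h
    have := congrFun h x
    omega
  · apply bn_of_sep hc
    intro u v hu hv huv
    by_cases hux : u = x
    · subst hux
      rw [hgy v huv.symm] at hv ⊢
      have := hno v hv
      omega
    · by_cases hvx : v = x
      · subst hvx
        rw [hgy u huv] at hu ⊢
        have := hno u hu
        rw [G.dist_comm] at this
        omega
      · rw [hgy u hux] at hu ⊢
        rw [hgy v hvx] at hv ⊢
        exact bn_sep hc hf.2.1 hu hv huv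

theorem maxBn_partner [Nontrivial V] (hc : G.Connected) {f : V → ℕ} (hf : MaxBn G f) :
    ∀ v, 0 < f v → (∀ u, 0 < f u → u = v) ∨
      ∃ u, 0 < f u ∧ u ≠ v ∧ G.dist u v ≤ f u + f v := by
  classical
  intro v hv
  have hb := (isBroadcast_iff f).1 hf.1
  by_cases he : f v = ecc G v
  · left
    intro u hu
    by_contra huv
    have h1 := bn_sep hc hf.2.1 hu hv huv
    have h2 := dist_le_ecc (G := G) u v
    omega
  · right
    by_contra hno
    push Not at hno
    let g : V → ℕ := Function.update f v (f v + 1)
    have hgv : g v = f v + 1 := by simp [g]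
    have hgy : ∀ y, y ≠ v → g y = f y := by intro y hy; simp [g, hy]
    apply hf.2.2 g
    · rw [isBroadcast_iff]
      intro w
      by_cases h : w = v
      · subst h
        have := hb w
        omega
      · rw [hgy w h]; exact hb w
    · intro w
      show f w ≤ g w
      by_cases h : w = v
      · subst h; omega
      · rw [hgy w h]
    · intro h
      have := congrFun h v
      omega
    · apply bn_of_sep hc
      intro a b ha hb' hab
      by_cases hav : a = v
      · subst hav
        rw [hgy b hab.symm] at hb' ⊢
        have := hno b hb' hab.symm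
        rw [G.dist_comm] at this
        omega
      · by_cases hbv : b = v
        · subst hbv
          rw [hgy a hab] at ha ⊢
          have := hno a ha hab
          omega
        · rw [hgy a hav] at ha ⊢
          rw [hgy b hbv] at hb' ⊢
          exact bn_sep hc hf.2.1 ha hb' hab

theorem ibn_attained [Nontrivial V] (hc : G.Connected) :
    ∃ f : V → ℕ, MaxBn G f ∧ cost f = ibn G := by
  have hset : {c | ∃ f : V → ℕ, MaxBn G f ∧ cost f = c}.Nonempty := by
    obtain ⟨f, hf⟩ := maxBn_exists hc
    exact ⟨_, f, hf, rfl⟩
  exact Nat.sInf_mem hset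

/-- One inequality, for all connected spanning subgraphs. -/
theorem ibn_le_of_le [Nontrivial V] {T : SimpleGraph V} (hT : T.Connected) (hTG : T ≤ G) :
    ibn G ≤ ibn T := by
  classical
  have hc : G.Connected := hT.mono hTG
  obtain ⟨f, hf, hcost⟩ := ibn_attained hT
  rw [← hcost]
  have hd : ∀ u v, G.dist u v ≤ T.dist u v := by
    intro u v
    obtain ⟨p, hp⟩ := hT.exists_walk_length_eq_dist u v
    rw [← hp, ← Walk.length_mapLe hTG]
    exact G.dist_le _
  apply merging G f hc
  · intro x
    obtain ⟨v, hv, h⟩ := maxBn_cover hT hf x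
    exact ⟨v, hv, le_trans (hd x v) h⟩
  · intro v hv
    rcases maxBn_partner hT hf v hv with h | ⟨u, hu, huv, h⟩
    · exact Or.inl h
    · exact Or.inr ⟨u, hu, huv, le_trans (hd u v) h⟩

end general

section construction

variable {V : Type} [Fintype V] [DecidableEq V] {G : SimpleGraph V}

/-- leftover strength at `x` -/
noncomputable def lam (G : SimpleGraph V) (f : V → ℕ) (x : V) : ℕ :=
  univ.sup (fun v => f v - G.dist x v)

omit [DecidableEq V] in
theorem le_lam (f : V → ℕ) (x v : V) : f v - G.dist x v ≤ lam G f x :=
  Finset.le_sup (f := fun v => f v - G.dist x v) (mem_univ v)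

omit [DecidableEq V] in
theorem lam_lip (hc : G.Connected) (f : V → ℕ) {x y : V} (h : G.Adj x y) :
    lam G f y ≤ lam G f x + 1 := by
  unfold lam
  apply Finset.sup_le
  intro v _
  have h1 := le_lam (G := G) f x v
  unfold lam at h1
  have h2 := hc.dist_triangle (u := x) (v := y) (w := v)
  have h3 := dist_one h
  omega

theorem spanning_tree [Nontrivial V] (hc : G.Connected) :
    ∃ T ≤ G, T.IsTree ∧ ibn T ≤ ibn G := by
  classical
  obtain ⟨f, hf, hcost⟩ := ibn_attained hc
  have hcov := maxBn_cover hc hf
  have hpar := maxBn_partner hc hf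
  have hsep : ∀ u v, 0 < f u → 0 < f v → u ≠ v → f u + f v ≤ G.dist u v :=
    fun u v hu hv huv => bn_sep hc hf.2.1 hu hv huv
  let L := lam G f
  have hL : ∀ x, L x = lam G f x := fun _ => rfl
  -- maximisers
  have hmaxi : ∀ x, ∃ v, 0 < f v ∧ G.dist x v ≤ f v ∧ f v - G.dist x v = L x := by
    intro x
    obtain ⟨v, _, hv⟩ := Finset.exists_mem_eq_sup (univ : Finset V) ⟨x, mem_univ x⟩
      (fun v => f v - G.dist x v)
    by_cases h0 : L x = 0
    · obtain ⟨w, hw, hd⟩ := hcov x
      have := le_lam (G := G) f x w
      rw [← hL] at this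
      exact ⟨w, hw, hd, by omega⟩
    · have hv' : L x = f v - G.dist x v := hv
      exact ⟨v, by omega, by omega, hv'.symm⟩
  have hLroot : ∀ v, 0 < f v → L v = f v := by
    intro v hv
    apply le_antisymm
    · rw [hL]
      unfold lam
      apply Finset.sup_le
      intro u _
      by_cases huv : u = v
      · subst huv; simp
      · by_cases hu : 0 < f u
        · have := hsep v u hv hu (Ne.symm huv)
          omega
        · omega
    · have := le_lam (G := G) f v v
      rw [SimpleGraph.dist_self, ← hL] at this
      omega
  -- parents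
  have hparent : ∀ x, ∃ y, (0 < f x → y = x) ∧ (f x = 0 → G.Adj x y ∧ L y = L x + 1) := by
    intro x
    by_cases hx : 0 < f x
    · exact ⟨x, fun _ => rfl, fun h => by omega⟩
    · obtain ⟨v, hv, hd, hLv⟩ := hmaxi x
      have hxv : x ≠ v := by rintro rfl; exact hx hv
      obtain ⟨p, hp⟩ := hc.exists_walk_length_eq_dist x v
      cases p with
      | nil => exact absurd rfl hxv
      | cons h q =>
        rename_i y
        refine ⟨y, fun h' => absurd h' hx, fun _ => ⟨h, ?_⟩⟩
        have h1 := lam_lip hc f h
        rw [← hL, ← hL] at h1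
        have h2 := le_lam (G := G) f y v
        rw [← hL] at h2
        have h3 := G.dist_le q
        simp only [Walk.length_cons] at hp
        omega
  choose par hpar1 hpar2 using hparent
  -- the forest
  let par' : Option V → Option V := fun o => match o with
    | none => none
    | some x => if 0 < f x then none else some (par x)
  let F : SimpleGraph V := (ofParent par').comap some
  have hFadj : ∀ x y, F.Adj x y ↔ x ≠ y ∧ ((f x = 0 ∧ par x = y) ∨ (f y = 0 ∧ par y = x)) := by
    intro x y
    show (some x ≠ some y ∧ (par' (some x) = some y ∨ par' (some y) = some x)) ↔ _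
    have hx : par' (some x) = some y ↔ (f x = 0 ∧ par x = y) := by
      simp only [par']
      by_cases h : 0 < f x
      · rw [if_pos h]
        constructor
        · intro h'; exact absurd h' (by simp)
        · rintro ⟨h', _⟩; omega
      · rw [if_neg h]
        constructor
        · intro h'; exact ⟨by omega, Option.some.inj h'⟩
        · rintro ⟨_, h'⟩; rw [h']
    have hy : par' (some y) = some x ↔ (f y = 0 ∧ par y = x) := by
      simp only [par']
      by_cases h : 0 < f y
      · rw [if_pos h]
        constructor
        · intro h'; exact absurd h' (by simp)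
        · rintro ⟨h', _⟩; omega
      · rw [if_neg h]
        constructor
        · intro h'; exact ⟨by omega, Option.some.inj h'⟩
        · rintro ⟨_, h'⟩; rw [h']
    rw [hx, hy]
    simp
  obtain ⟨Λ, hΛ⟩ : ∃ Λ, ∀ x, L x ≤ Λ := ⟨univ.sup L, fun x => Finset.le_sup (mem_univ x)⟩
  have hFacyc : F.IsAcyclic := by
    have htree : (ofParent par').IsTree := by
      apply isTree par' none (fun o => match o with
        | none => 0
        | some x => Λ + 1 - L x)
      · intro o ho
        cases o with
        | none => exact absurd rfl ho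
        | some x =>
          have hx := hΛ x
          simp only [par']
          by_cases h : 0 < f x
          · rw [if_pos h]; simp only; omega
          · rw [if_neg h]
            simp only
            have h1 := (hpar2 x (by omega)).2
            have h2 := hΛ (par x)
            omega
      · rfl
    exact htree.2.comap ⟨some, fun h => h⟩ (Option.some_injective V)
  have hFG : F ≤ G := by
    intro x y h
    rw [hFadj] at h
    rcases h with ⟨_, ⟨h1, h2⟩ | ⟨h1, h2⟩⟩
    · rw [← h2]; exact (hpar2 x h1).1
    · rw [← h2]; exact (hpar2 y h1).1.symm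
  -- the root map
  let r : V → V := fun x => par^[Λ + 1] x
  have hiter_root : ∀ v, 0 < f v → ∀ n, par^[n] v = v := by
    intro v hv n
    induction n with
    | zero => rfl
    | succ n ih => rw [Function.iterate_succ_apply', ih, hpar1 v hv]
  have hiter : ∀ n x, (0 < f (par^[n] x)) ∨ L (par^[n] x) = L x + n := by
    intro n x
    induction n with
    | zero => right; rfl
    | succ n ih =>
      rw [Function.iterate_succ_apply']
      rcases ih with h | h
      · left; rw [hpar1 _ h]; exact h
      · by_cases h0 : 0 < f (par^[n] x)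
        · left; rw [hpar1 _ h0]; exact h0
        · right
          have := (hpar2 (par^[n] x) (by omega)).2
          omega
  have hr_pos : ∀ x, 0 < f (r x) := by
    intro x
    rcases hiter (Λ + 1) x with h | h
    · exact h
    · have := hΛ (par^[Λ + 1] x)
      omega
  have hr_root : ∀ v, 0 < f v → r v = v := fun v hv => hiter_root v hv _
  have hr_par : ∀ x, r (par x) = r x := by
    intro x
    show par^[Λ + 1] (par x) = par^[Λ + 1] x
    rw [← Function.iterate_succ_apply, Function.iterate_succ_apply']
    exact hpar1 _ (hr_pos x)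
  have hr_adj : ∀ x y, F.Adj x y → r x = r y := by
    intro x y h
    rw [hFadj] at h
    rcases h with ⟨_, ⟨_, h2⟩ | ⟨_, h2⟩⟩
    · rw [← h2, hr_par]
    · rw [← h2, hr_par]
  -- walks to the root
  have hwalk_iter : ∀ n x, ∃ p : F.Walk x (par^[n] x), L x + p.length = L (par^[n] x) := by
    intro n
    induction n with
    | zero => intro x; exact ⟨Walk.nil, by simp⟩
    | succ n ih =>
      intro x
      by_cases hx : 0 < f x
      · rw [hiter_root x hx]
        exact ⟨Walk.nil, by simp⟩
      · obtain ⟨p, hp⟩ := ih (par x)
        have h1 := hpar2 x (by omega)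
        have hadj : F.Adj x (par x) := by
          rw [hFadj]
          refine ⟨G.ne_of_adj h1.1, Or.inl ⟨by omega, rfl⟩⟩
        rw [Function.iterate_succ_apply]
        exact ⟨Walk.cons hadj p, by simp only [Walk.length_cons]; omega⟩
  have hwalk : ∀ x, ∃ p : F.Walk x (r x), L x + p.length = f (r x) := by
    intro x
    obtain ⟨p, hp⟩ := hwalk_iter (Λ + 1) x
    exact ⟨p, by rw [hp]; exact hLroot _ (hr_pos x)⟩
  -- good edges
  let M : SimpleGraph V :=
    { Adj := fun x y => G.Adj x y ∧ 1 ≤ L x + L y
      symm := ⟨fun x y h => ⟨h.1.symm, by omega⟩⟩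
      loopless := ⟨fun x h => G.irrefl h.1⟩ }
  have hMadj : ∀ x y, M.Adj x y ↔ G.Adj x y ∧ 1 ≤ L x + L y := fun _ _ => Iff.rfl
  have hFM : F ⊔ M ≤ G := sup_le hFG (fun x y h => h.1)
  obtain ⟨H, hFH, hHFM, hHacyc, hHreach⟩ :=
    (F ⊔ M).exists_isAcyclic_reachable_eq_le_of_le_of_isAcyclic (le_sup_left (a := F) (b := M))
      hFacyc
  obtain ⟨T, hHT, hTG, hT⟩ := hc.exists_isTree_le_of_le_of_isAcyclic (le_trans hHFM hFM) hHacyc
  refine ⟨T, hTG, hT, ?_⟩
  rw [← hcost]
  have hFT : F ≤ T := le_trans hFH hHT
  have hroot_dist : ∀ x, T.dist x (r x) + L x ≤ f (r x) := by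
    intro x
    obtain ⟨p, hp⟩ := hwalk x
    have h1 := T.dist_le (p.mapLe hFT)
    rw [Walk.length_mapLe] at h1
    omega
  apply merging T f hT.1
  · intro x
    exact ⟨r x, hr_pos x, by have := hroot_dist x; omega⟩
  · intro v hv
    rcases hpar v hv with h | ⟨u, hu, huv, hd⟩
    · exact Or.inl h
    · right
      -- walking from v to u in G, find the first exit from the cluster of v
      obtain ⟨w, hw⟩ := hc.exists_walk_length_eq_dist v u
      have hexit : ∀ {a b : V} (p : G.Walk a b), r a = v → r b ≠ v →
          G.dist v a + p.length ≤ f v + f u → b = u →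
          ∃ x y, G.Adj x y ∧ 1 ≤ L x + L y ∧ r x = v ∧ r y ≠ v := by
        intro a b p
        induction p with
        | nil => intro h1 h2; exact absurd h1 h2
        | cons h q ih =>
          rename_i a c b
          intro h1 h2 h3 h4
          simp only [Walk.length_cons] at h3
          have hvc : G.dist v c ≤ G.dist v a + 1 := by
            have h5 := hc.dist_triangle (u := v) (v := a) (w := c)
            have h6 := dist_one h
            omega
          by_cases hcv : r c = v
          · exact ih hcv h2 (by omega) h4
          · refine ⟨a, c, h, ?_, h1, hcv⟩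
            by_cases hlt : G.dist v a < f v
            · have h5 := le_lam (G := G) f a v
              rw [← hL, G.dist_comm] at h5
              omega
            · have h5 := le_lam (G := G) f c u
              rw [← hL] at h5
              have h6 : G.dist c u ≤ q.length := by rw [← h4]; exact G.dist_le q
              omega
      have hru : r u ≠ v := by rw [hr_root u hu]; exact huv
      obtain ⟨x, y, hxy, hLxy, hrx, hry⟩ := hexit w (hr_root v hv) hru (by
        rw [SimpleGraph.dist_self, hw, G.dist_comm]
        omega) rfl
      have hreach : H.Reachable x y := by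
        rw [hHreach]
        have : (F ⊔ M).Adj x y := Or.inr ⟨hxy, hLxy⟩
        exact this.reachable
      obtain ⟨w'⟩ := hreach
      have hexit' : ∀ {a b : V} (p : H.Walk a b), r a = v → r b ≠ v →
          ∃ x y, H.Adj x y ∧ r x = v ∧ r y ≠ v := by
        intro a b p
        induction p with
        | nil => intro h1 h2; exact absurd h1 h2
        | cons h q ih =>
          rename_i a c b
          intro h1 h2
          by_cases hcv : r c = v
          · exact ih hcv h2
          · exact ⟨a, c, h, h1, hcv⟩
      obtain ⟨a, b, hab, hra, hrb⟩ := hexit' w' hrx hry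
      have hM : M.Adj a b := by
        rcases hHFM hab with h | h
        · exact absurd ((hr_adj a b h).symm.trans hra) hrb
        · exact h
      refine ⟨r b, hr_pos b, hrb, ?_⟩
      have h1 := hroot_dist a
      have h2 := hroot_dist b
      rw [hra] at h1
      have h3 := hT.1.dist_triangle (u := r b) (v := b) (w := v)
      have h4 := hT.1.dist_triangle (u := b) (v := a) (w := v)
      have h5 := dist_one (hHT hab)
      have h6 := hM.2
      rw [T.dist_comm (u := r b) (v := b)] at h3
      rw [T.dist_comm (u := b) (v := a)] at h4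
      omega

end construction

theorem ibn_one {V : Type} [Fintype V] [Subsingleton V] [Nonempty V] (G : SimpleGraph V) :
    ibn G = 1 := by
  classical
  obtain ⟨v0⟩ := ‹Nonempty V›
  have hs : Subsingleton V := inferInstance
  have hbr : IsBroadcast G (fun _ : V => 1) :=
    ⟨fun h => absurd hs (not_subsingleton_iff_nontrivial.2 h), fun _ _ => rfl⟩
  have huniq : ∀ g : V → ℕ, IsBroadcast G g → g = fun _ => 1 :=
    fun g hg => funext fun v => hg.2 hs v
  have h1 : MaxBn G (fun _ : V => 1) := by
    refine ⟨hbr, ?_, fun g hg _ hne => absurd (huniq g hg) hne⟩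
    rintro x ⟨u, v, huv, _⟩
    exact absurd (Subsingleton.elim u v) huv
  have hcard : Fintype.card V = 1 := Fintype.card_eq_one_iff.2 ⟨v0, fun y => Subsingleton.elim y v0⟩
  have hcost : cost (fun _ : V => 1) = 1 := by
    simp [cost, hcard]
  have hset : {c | ∃ f : V → ℕ, MaxBn G f ∧ cost f = c}.Nonempty := ⟨_, _, h1, rfl⟩
  obtain ⟨f, hf, hc⟩ := Nat.sInf_mem hset
  unfold ibn
  rw [← hc, huniq f hf.1, hcost]

/-- **Main result.**  For every finite connected graph `G`,
`i_bn(G) = min { i_bn(T) : T a spanning tree of G }`. -/
theorem result (V : Type) [Fintype V] (G : SimpleGraph V) (hc : G.Connected) :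
    IsLeast {n | ∃ T : SimpleGraph V, T ≤ G ∧ T.IsTree ∧ ibn T = n} (ibn G) := by
  classical
  have hne : Nonempty V := hc.nonempty
  rcases subsingleton_or_nontrivial V with hs | hnt
  · constructor
    · obtain ⟨T, hTG, hT⟩ := hc.exists_isTree_le
      exact ⟨T, hTG, hT, by rw [ibn_one, ibn_one]⟩
    · rintro n ⟨T, _, _, rfl⟩
      rw [ibn_one, ibn_one]
  · constructor
    · obtain ⟨T, hTG, hT, hle⟩ := spanning_tree hc
      exact ⟨T, hTG, hT, le_antisymm hle (ibn_le_of_le hT.1 hTG)⟩
    · rintro n ⟨T, hTG, hT, rfl⟩
      exact ibn_le_of_le hT.1 hTG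

end Pool.Agent.Results.MP_7de179_co.SpanningTreeMin
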